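import Pool.Agent.H7.GT.Stmts

/-!
# Row KU2 of the board `gt` (MP_fd41b2_co): cliques with `w` vertices
-/

set_option autoImplicit false

open Finset

namespace Pool.GT7

open Pool.Agent.H23.KT Pool.Agent.H46.KW Pool.KQ

private lemma KU2_pow {b : ℕ} {e : ℝ} (h0 : 0 ≤ e) (h1 : (b : ℝ) * e ≤ 1 / 4) :
    (1 + e) ^ b ≤ 4 / 3 := by
  rcases Nat.eq_zero_or_pos b with rfl | hb
  · norm_num
  have hb1 : (1 : ℝ) ≤ b := by exact_mod_cast hb
  have he : e ≤ 1 / 4 := by nlinarith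
  have h2 : 1 + (b : ℝ) * (-e) ≤ (1 + (-e)) ^ b := one_add_mul_le_pow (by linarith) b
  have h3 : (3 : ℝ) / 4 ≤ (1 + (-e)) ^ b := by linarith
  have h4 : (1 + e) ^ b * (1 + (-e)) ^ b ≤ 1 := by
    rw [← mul_pow]
    refine pow_le_one₀ ?_ ?_
    · exact mul_nonneg (by linarith) (by linarith)
    · nlinarith
  have h5 : 0 ≤ (1 + e) ^ b := by positivity
  nlinarith

theorem KU2_thm (h1 : DBLStmt) (h2 : GCOStmt) (h3 : CCKStmt) (h4 : TRVStmt) : KU2Stmt := by
  intro V _ G p w r a e C W P U hP hS he he' hCB z hz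
  obtain ⟨c1, -, -, -⟩ := h3 G p w r a e C W P U hP hS he he' hCB z hz
  obtain ⟨g1, -, -, g4, -, -⟩ := h2 p w r hP
  have hwp := hP.wp
  have hrw := hP.rw
  obtain ⟨-, d2⟩ := h1 G p a e P he he' hS.par hS.lo hS.mis z w (by omega)
  set T : ℝ := TZ G p r (un P) z with hT
  set κ : ℝ := (kc G (nb G (un P) z) w : ℝ) with hκ
  have hκ0 : 0 ≤ κ := Nat.cast_nonneg _
  have hT0 : 0 ≤ T := by
    rw [hT, TZ]
    exact Finset.sum_nonneg fun L hL => (g1 _ (c1 L hL)).1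
  -- the pointwise inequality
  have key : ∀ L ∈ clq G (un P) (p + 3), ((nb G L z).card.choose w : ℝ) ≤
      1 + 2 ^ (p + 3) * ((p : ℝ) + 3) * ww p r (nb G L z).card := by
    intro L hL
    have hB := c1 L hL
    set B := (nb G L z).card with hBdef
    obtain ⟨w0, -, -, -⟩ := g1 B hB
    by_cases hr : r ≤ B
    · have h5 := g4 B hB hr
      have h6 : (B.choose w : ℝ) ≤ 2 ^ (p + 3) := by
        have h7 : B.choose w ≤ 2 ^ B := Nat.choose_le_two_pow B w
        have h8 : 2 ^ B ≤ 2 ^ (p + 3) := Nat.pow_le_pow_right (by norm_num) (by omega)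
        exact_mod_cast h7.trans h8
      have hp3 : (0 : ℝ) < (p : ℝ) + 3 := by positivity
      have h9 : 1 ≤ ((p : ℝ) + 3) * ww p r B := by
        have h10 := mul_le_mul_of_nonneg_left h5 hp3.le
        rwa [mul_one_div, div_self hp3.ne'] at h10
      have h11 : (0 : ℝ) < 2 ^ (p + 3) := by positivity
      have h12 := mul_le_mul_of_nonneg_left h9 h11.le
      calc (B.choose w : ℝ) ≤ 2 ^ (p + 3) * 1 := by rw [mul_one]; exact h6
        _ ≤ 2 ^ (p + 3) * (((p : ℝ) + 3) * ww p r B) := h12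
        _ = 2 ^ (p + 3) * ((p : ℝ) + 3) * ww p r B := by ring
        _ ≤ _ := by linarith
    · have h5 : B.choose w ≤ 1 := by
        rcases Nat.lt_or_ge B w with h6 | h6
        · rw [Nat.choose_eq_zero_of_lt h6]
          exact Nat.zero_le _
        · have h7 : B = w := by omega
          rw [h7, Nat.choose_self]
      have h6 : (B.choose w : ℝ) ≤ 1 := by exact_mod_cast h5
      have h7 : 0 ≤ 2 ^ (p + 3) * ((p : ℝ) + 3) * ww p r B := by positivity
      linarith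
  have hsum : ∑ L ∈ clq G (un P) (p + 3), ((nb G L z).card.choose w : ℝ) ≤
      kc G (un P) (p + 3) + 2 ^ (p + 3) * ((p : ℝ) + 3) * T := by
    refine (Finset.sum_le_sum key).trans (le_of_eq ?_)
    rw [Finset.sum_add_distrib, ← Finset.mul_sum, Finset.sum_const, nsmul_eq_mul, mul_one, hT, TZ,
      kc_eq]
  -- the number of transversals
  have hX : (kc G (un P) (p + 3) : ℝ) ≤ 4 / 3 * (a : ℝ) ^ (p + 3) := by
    have h5 : kc G (un P) (p + 3) ≤ ∏ i, (P i).card := by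
      rw [(h4 G P hS.par).1, ← Fintype.card_piFinset]
      refine Finset.card_le_card fun f hf => ?_
      simp only [trv, Finset.mem_filter] at hf
      exact hf.1
    have h6 : ∏ i, ((P i).card : ℝ) ≤ ((1 + e) * a) ^ (p + 3) := by
      calc ∏ i, ((P i).card : ℝ) ≤ ∏ _i : Fin (p + 3), ((1 + e) * (a : ℝ)) :=
            Finset.prod_le_prod (fun i _ => Nat.cast_nonneg _) (fun i _ => hS.hi i)
        _ = _ := by rw [Finset.prod_const, card_univ, Fintype.card_fin]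
    have h7 : (1 + e) ^ (p + 3) ≤ 4 / 3 := by
      refine KU2_pow he ?_
      have h8 : e ≤ 1 / (16 * ((p : ℝ) + 3) ^ 3) / 2 := he'
      have hp3 : (3 : ℝ) ≤ (p : ℝ) + 3 := by
        have : (0 : ℝ) ≤ p := Nat.cast_nonneg p
        linarith
      have h9 : ((p + 3 : ℕ) : ℝ) = (p : ℝ) + 3 := by push_cast; ring
      rw [h9]
      have h10 : ((p : ℝ) + 3) * e ≤ ((p : ℝ) + 3) * (1 / (16 * ((p : ℝ) + 3) ^ 3) / 2) :=
        mul_le_mul_of_nonneg_left h8 (by linarith)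
      have h11 : ((p : ℝ) + 3) * (1 / (16 * ((p : ℝ) + 3) ^ 3) / 2) =
          1 / (32 * ((p : ℝ) + 3) ^ 2) := by
        field_simp
        ring
      have h12 : 1 / (32 * ((p : ℝ) + 3) ^ 2) ≤ 1 / 4 := by
        apply one_div_le_one_div_of_le (by norm_num)
        nlinarith
      linarith
    calc (kc G (un P) (p + 3) : ℝ) ≤ ∏ i, ((P i).card : ℝ) := by exact_mod_cast h5
      _ ≤ ((1 + e) * a) ^ (p + 3) := h6
      _ = (1 + e) ^ (p + 3) * (a : ℝ) ^ (p + 3) := mul_pow _ _ _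
      _ ≤ _ := mul_le_mul_of_nonneg_right h7 (by positivity)
  -- assembly
  have hb : (95 : ℝ) / 96 ≤ 1 - 1 / (32 * ((p : ℝ) + 3)) := by
    have hp3 : (3 : ℝ) ≤ (p : ℝ) + 3 := by
      have : (0 : ℝ) ≤ p := Nat.cast_nonneg p
      linarith
    have : 1 / (32 * ((p : ℝ) + 3)) ≤ 1 / 96 := by
      apply one_div_le_one_div_of_le (by norm_num)
      linarith
    linarith
  have h5 : (a : ℝ) ^ (p + 3 - w) * κ ≤
      96 / 95 * (4 / 3 * (a : ℝ) ^ (p + 3) + 2 ^ (p + 3) * ((p : ℝ) + 3) * T) := by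
    have h6 := d2.trans (hsum.trans (add_le_add_left hX _))
    have h7 : 0 ≤ (a : ℝ) ^ (p + 3 - w) * κ := by positivity
    have h8 := mul_le_mul_of_nonneg_right hb h7
    linarith
  have h6 : (a : ℝ) ^ (p + 3) = (a : ℝ) ^ w * (a : ℝ) ^ (p + 3 - w) := by
    rw [← pow_add]
    congr 1
    omega
  have h7 : 2 ^ (p + 4) * ((p : ℝ) + 3) * T = 2 * (2 ^ (p + 3) * ((p : ℝ) + 3) * T) := by
    rw [pow_succ' 2 (p + 3)]
    ring
  have h8 : 0 ≤ 2 ^ (p + 3) * ((p : ℝ) + 3) * T := by positivity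
  have h9 : 0 ≤ (a : ℝ) ^ (p + 3) := by positivity
  have h10 : (a : ℝ) ^ (p + 3 - w) * κ ≤ 3 / 2 * (a : ℝ) ^ (p + 3) +
      2 ^ (p + 4) * ((p : ℝ) + 3) * T := by
    rw [h7]
    linarith
  calc κ * (a : ℝ) ^ (p + 3) = (a : ℝ) ^ w * ((a : ℝ) ^ (p + 3 - w) * κ) := by
        rw [h6]; ring
    _ ≤ _ := mul_le_mul_of_nonneg_left h10 (by positivity)

end Pool.GT7
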